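import Mathlib
import Pool.Agent.H68.GeomHyp
import Pool.Agent.H93.EZ.Final

/-!
The Erdős–Lovász–Simmons–Straus conjecture `f^1_{2,2}(m,n) ≥ m²/n²` for all numbers `n` of vertices and
`m` of edges, and the value of `f^1_{2,2}(m,n)` up to a lower order term: with `a = m/n`,
`(a + 1/2)² - 1/2 ≤ f ≤ (a + 3/2)²`.
-/

set_option autoImplicit false

namespace Pool.Agent.Results.MP_737bdd_co.ELSS

open Pool.Agent.H68

/-- **The Erdős–Lovász–Simmons–Straus conjecture**, with a lower order term and upper bounds -/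
theorem result (n m : ℕ) (hm1 : 1 ≤ m) (hmn : m ≤ n.choose 2) :
    (m : ℝ) ^ 2 / (n : ℝ) ^ 2 ≤ (fval 2 2 1 m n : ℝ) ∧
      ((m : ℝ) / (n : ℝ) + 1 / 2) ^ 2 - 1 / 2 ≤ (fval 2 2 1 m n : ℝ) ∧
      (fval 2 2 1 m n : ℝ) ≤ ((m : ℝ) / (n : ℝ) + 3 / 2) ^ 2 ∧
      (fval 2 2 1 m n : ℝ) ≤ (⌈(m : ℝ) / (n : ℝ)⌉₊ : ℝ) * ((⌈(m : ℝ) / (n : ℝ)⌉₊ : ℝ) + 3) :=
  Pool.Agent.H93.EZ.final n m hm1 hmn

end Pool.Agent.Results.MP_737bdd_co.ELSS
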