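import Mathlib
import Pool.Agent.H99.Sel.Main
import Pool.Agent.H74.GA.Fnl
import Pool.Agent.H74.GC.Top

/-!
Flats of codimension `j` meeting many edges of geometric hypergraphs on integer points (lower
bounds), and an upper bound for points (the second selection lemma) with the same exponent.
-/

namespace Pool.Agent.Results.MP_737bdd_co.SelectionBounds

open Pool.Agent.H68

theorem result :
    (∀ d r N : ℕ, 2 ≤ d → 3 ≤ r → 2 ≤ N → ∀ G : GeomHyp d r,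
      (∀ x ∈ G.V, ∀ i, ∃ z : ℕ, z ≤ N ∧ x i = z) →
      ∃ L : AffineSubspace ℝ (Pt d), IsFlat (d - 2) L ∧
        (G.E.card : ℝ) ^ (((r : ℝ) - 1) / ((r : ℝ) - 2)) ≤
          14400 * (d : ℝ) ^ 2 * (Real.log N) ^ 2 * (G.V.card : ℝ) ^ ((r : ℝ) / ((r : ℝ) - 2)) *
            numMet G L) ∧
    (∀ d : ℕ, ∃ c : ℝ, 0 < c ∧ ∀ j r N : ℕ, 1 ≤ j → j ≤ d → j + 1 ≤ r → 2 ≤ N →
      ∀ G : GeomHyp d r, (∀ x ∈ G.V, ∀ i, ∃ z : ℕ, z ≤ N ∧ x i = z) →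
      ∃ L : AffineSubspace ℝ (Pt d), IsFlat (d - j) L ∧
        c * ((G.E.card : ℝ) *
          (((G.E.card : ℝ) / (G.V.card : ℝ) ^ j) ^ (1 / ((r : ℝ) - j)) / G.V.card) ^
            ((j + 1) / 2)) ≤
          (Real.log N) ^ ((j + 1) * ((j + 1) / 2 + 1)) * numMet G L) ∧
    (∀ d : ℕ, 1 ≤ d → ∃ C : ℝ, 0 < C ∧ ∀ n m : ℕ, 1 ≤ m → m ≤ n.choose (d + 1) →
      (fval d (d + 1) 0 m n : ℝ) ≤
        C * (max 1 ((m : ℝ) / n) +
          (m : ℝ) * ((m : ℝ) / (n : ℝ) ^ (d + 1)) ^ ((d + 1) / 2))) :=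
  ⟨fun d r N hd hr hN G hG => Pool.Agent.H99.Sel.codimTwo d r N hd hr hN G hG,
    Pool.Agent.H74.GA.gridFlats, Pool.Agent.H74.GC.selUpper⟩

end Pool.Agent.Results.MP_737bdd_co.SelectionBounds
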