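import Mathlib
import Pool.Agent.H9.SD.MainC

/-!
The asymptotic value of `f^k_{d,r}(m,n)`, constant included: hyperplanes (`k = d - 1`) for
`n ≪ m ≪ n^r`, and all `k < d` for `n ≪ m ≪ n^min(r, d-k)`.
-/

namespace Pool.Agent.Results.MP_737bdd_co.SharpConstants

open Pool.Agent.H68

theorem result (d r : ℕ) (hr : 2 ≤ r) (hrd : r ≤ d + 1) (ε : ℝ) (hε : 0 < ε) :
    ∃ K : ℝ, 0 < K ∧ ∀ n m : ℕ, 1 ≤ m → K * n ≤ m →
      (K * m ≤ (n : ℝ) ^ r →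
        (1 - ε) * (d * (((r : ℝ) - 1) / r) * ((r - 1).factorial : ℝ) ^ (1 / ((r : ℝ) - 1)) *
            ((m : ℝ) / n) ^ ((r : ℝ) / ((r : ℝ) - 1))) ≤ (fval d r (d - 1) m n : ℝ) ∧
        (fval d r (d - 1) m n : ℝ) ≤
          (1 + ε) * (d * (((r : ℝ) - 1) / r) * ((r - 1).factorial : ℝ) ^ (1 / ((r : ℝ) - 1)) *
            ((m : ℝ) / n) ^ ((r : ℝ) / ((r : ℝ) - 1)))) ∧
      (∀ k : ℕ, k < d → K * m ≤ (n : ℝ) ^ min r (d - k) →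
        (1 - ε) * (((k : ℝ) + 1) * r * ((m : ℝ) / n)) ≤ (fval d r k m n : ℝ) ∧
        (fval d r k m n : ℝ) ≤ (1 + ε) * (((k : ℝ) + 1) * r * ((m : ℝ) / n))) :=
  Pool.Agent.H9.SD.sharp_all d r hr hrd ε hε

end Pool.Agent.Results.MP_737bdd_co.SharpConstants
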