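import Mathlib
import Pool.Agent.H9.SC.TwoS
import Pool.Agent.H9.SC.Order

/-!
Bounds for `f^k_{d,r}(m,n)` for all parameters `k < d`; the order of magnitude is determined unless
`k + r > d`, `k ≤ d - 2` and `m > n^{d-k}`.
-/

namespace Pool.Agent.Results.MP_737bdd_co.TwoSided

open Pool.Agent.H68

theorem result (d r k : ℕ) (hr : 1 ≤ r) (hrd : r ≤ d + 1) (hk : k < d) :
    ∃ c C : ℝ, 0 < c ∧ 0 < C ∧ ∀ n m : ℕ, 1 ≤ m → m ≤ n.choose r →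
      max 1 ((m : ℝ) / n) ≤ (fval d r k m n : ℝ) ∧
      (k + r ≤ d → (fval d r k m n : ℝ) ≤ C * max 1 ((m : ℝ) / n)) ∧
      (k + 1 = d → 2 ≤ r →
        c * max 1 (((m : ℝ) / n) ^ ((r : ℝ) / ((r : ℝ) - 1))) ≤ (fval d r k m n : ℝ) ∧
        (fval d r k m n : ℝ) ≤ C * max 1 (((m : ℝ) / n) ^ ((r : ℝ) / ((r : ℝ) - 1)))) ∧
      (d < k + r → (fval d r k m n : ℝ) ≤ C * max 1 ((m : ℝ) / n) *
        (max 1 ((m : ℝ) / (n : ℝ) ^ (d - k))) ^ ((1 : ℝ) / ((k : ℝ) + r - d))) := by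
  obtain ⟨C1, hC1, h1⟩ := Pool.Agent.H9.SC.two_sided d r k hr hrd hk
  have hmax : ∀ x : ℝ, 0 ≤ max 1 x := fun x => le_trans zero_le_one (le_max_left 1 x)
  by_cases h2 : k + 1 = d ∧ 2 ≤ r
  · obtain ⟨c, C2, hc, hC2, h3⟩ := Pool.Agent.H9.SC.order_hyper d r h2.2 hrd
    have hkd : d - 1 = k := by omega
    rw [hkd] at h3
    refine ⟨c, C1 + C2, hc, by positivity, fun n m hm1 hm => ?_⟩
    obtain ⟨a1, a2, a3⟩ := h1 n m hm1 hm
    obtain ⟨b1, b2⟩ := h3 n m hm1 hm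
    refine ⟨a1, fun h => (a2 h).trans ?_, fun _ _ => ⟨b1, b2.trans ?_⟩, fun h => (a3 h).trans ?_⟩
    · exact mul_le_mul_of_nonneg_right (by linarith) (hmax _)
    · exact mul_le_mul_of_nonneg_right (by linarith) (hmax _)
    · refine mul_le_mul_of_nonneg_right ?_ (Real.rpow_nonneg (hmax _) _)
      exact mul_le_mul_of_nonneg_right (by linarith) (hmax _)
  · refine ⟨1, C1, one_pos, hC1, fun n m hm1 hm => ?_⟩
    obtain ⟨a1, a2, a3⟩ := h1 n m hm1 hm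
    exact ⟨a1, a2, fun h h' => absurd ⟨h, h'⟩ h2, a3⟩

end Pool.Agent.Results.MP_737bdd_co.TwoSided
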